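import Mathlib
import Pool.Agent.Helper168_QF.Rho

/-!
Finite quotients of `Q(n, m)`: the finite index normal subgroups `Krho` of `Aut (F_n)`, for finite
fields of different characteristics, contain the `m`-th power of the Nielsen move and have
unbounded index.
-/

namespace Pool.Agent.Helper168_QF

open H270Q (ab nielsen nielsen_pow_zero nielsen_pow_ne ab_auto_ne ab_of_ne Q)

open Finset

set_option linter.unusedSectionVars false

variable {G : Type*} [Group G] {K : Type*} [Field K]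
variable {n : ℕ} (hn : 2 ≤ n) {c : G} {ω : K} {p : ℕ} (μ : FreeGroup (Fin n) →* G)

theorem rho_pow_zero (D : ℕ) (f : G → K) :
    rho hn c ω p μ (FreeGroup.of ⟨0, by omega⟩ ^ D) f =
      L (μ (FreeGroup.of ⟨0, by omega⟩) ^ D) f +
      ∑ i ∈ range D, L (μ (FreeGroup.of ⟨0, by omega⟩) ^ i) (v0 c ω p) := by
  induction D with
  | zero => simp [L_one]
  | succ D ih =>
    rw [pow_succ', map_mul, Equiv.Perm.mul_apply, ih, rho_of, if_pos rfl, L_add, ← L_mul,
      ← pow_succ', Finset.sum_range_succ', pow_zero, L_one, add_assoc]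
    congr 2
    have : ∀ (s : Finset ℕ) (F : ℕ → (G → K)) (g : G), L g (∑ i ∈ s, F i) = ∑ i ∈ s, L g (F i) := by
      intro s F g
      funext x
      simp [L, Finset.sum_apply]
    rw [this]
    apply Finset.sum_congr rfl
    intro i _
    rw [← L_mul, ← pow_succ']

theorem rho_pow_one (D : ℕ) (f : G → K) :
    rho hn c ω p μ (FreeGroup.of ⟨1, by omega⟩ ^ D) f =
      L (μ (FreeGroup.of ⟨1, by omega⟩) ^ D) f := by
  induction D with
  | zero => simp [L_one]
  | succ D ih =>
    rw [pow_succ', map_mul, Equiv.Perm.mul_apply, ih, rho_of, if_neg (by simp), add_zero, ← L_mul,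
      ← pow_succ']

theorem order_of_image [Fact p.Prime] {k : ℕ} (hcp : c ^ p = 1) (hc1 : c ≠ 1)
    (x : G) (s : ℕ) (hs : ¬ p ∣ s) (hx : x ^ (p ^ k) = c ^ s) : orderOf x = p ^ (k + 1) := by
  have hoc : orderOf c = p := orderOf_eq_prime hcp hc1
  apply orderOf_eq_prime_pow
  · rw [hx]
    intro h
    apply hs
    rw [← hoc]
    exact orderOf_dvd_of_pow_eq_one h
  · rw [pow_succ, pow_mul, hx, ← pow_mul, mul_comm, pow_mul, hcp, one_pow]

/-- A word `w` such that the inner automorphism of `w ^ j` lies in `Krho` only if `j = 0` in the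
field. -/
theorem exists_word [Fact p.Prime] {k : ℕ} (hc : ∀ g, c * g = g * c) (hcp : c ^ p = 1)
    (hc1 : c ≠ 1) (hω : IsPrimitiveRoot ω p)
    (H : ∀ g, ab n p g ≠ 1 → ∃ s : ℕ, ¬ p ∣ s ∧ μ g ^ (p ^ k) = c ^ s) :
    ∃ w : FreeGroup (Fin n), ∀ j : ℕ, MulAut.conj (w ^ j) ∈ Krho hn μ c ω p → (j : K) = 0 := by
  classical
  have hp : p.Prime := Fact.out
  have hω0 : ω ≠ 0 := hω.ne_zero hp.ne_zero
  set α : FreeGroup (Fin n) := FreeGroup.of ⟨0, by omega⟩ ^ (p ^ k) with hα
  set β : FreeGroup (Fin n) := FreeGroup.of ⟨1, by omega⟩ ^ (p ^ k) with hβ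
  obtain ⟨s1, hs1, e1⟩ := H (FreeGroup.of ⟨0, by omega⟩) (ab_of_ne p _)
  obtain ⟨s2, hs2, e2⟩ := H (FreeGroup.of ⟨1, by omega⟩) (ab_of_ne p _)
  set b : G → K := ∑ i ∈ range (p ^ k), L (μ (FreeGroup.of ⟨0, by omega⟩) ^ i) (v0 c ω p) with hb
  have hbV : InV c ω b := by
    have : ∀ (s : Finset ℕ), InV c ω
        (∑ i ∈ s, L (μ (FreeGroup.of ⟨0, by omega⟩) ^ i) (v0 c ω p)) := by
      intro s
      induction s using Finset.induction_on with
      | empty => simpa using InV.zero c ω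
      | insert a s ha ih =>
        rw [Finset.sum_insert ha]
        exact ((v0_inV hcp hω.pow_eq_one).L hc _).add ih
    exact this _
  set τ1 : K := (ω⁻¹) ^ s1 with hτ1
  set τ2 : K := (ω⁻¹) ^ s2 with hτ2
  have hτ2' : τ2 ≠ 1 := by
    rw [hτ2, inv_pow, Ne, inv_eq_one]
    intro h'
    exact hs2 ((hω.pow_eq_one_iff_dvd s2).1 h')
  have hρα : ∀ f, InV c ω f → rho hn c ω p μ α f = τ1 • f + b := by
    intro f hf
    rw [hα, rho_pow_zero, e1, hf.pow hω0]
  have hρβ : ∀ f, InV c ω f → rho hn c ω p μ β f = τ2 • f := by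
    intro f hf
    rw [hβ, rho_pow_one, e2, hf.pow hω0]
  -- `b ≠ 0`
  have hb0 : b ≠ 0 := by
    intro h0
    have h1 : b 1 = 0 := by rw [h0]; rfl
    have h2 : b 1 = 1 := by
      rw [hb, Finset.sum_apply, Finset.sum_eq_single 0]
      · rw [pow_zero, L_one]
        exact v0_one hp.pos (orderOf_eq_prime hcp hc1)
      · intro i hi hi0
        simp only [L, mul_one]
        apply v0_inv hcp
        intro h
        rw [← pow_mul] at h
        have h3 := orderOf_dvd_of_pow_eq_one h
        rw [order_of_image hcp hc1 _ s1 hs1 e1, pow_succ] at h3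
        have h4 := Nat.dvd_of_mul_dvd_mul_right hp.pos h3
        exact absurd (Nat.le_of_dvd (Nat.pos_of_ne_zero hi0) h4) (by simpa using hi)
      · intro h
        exact absurd (Finset.mem_range.2 (pow_pos hp.pos k)) h
    rw [h1] at h2
    exact zero_ne_one h2
  set T : G → K := (1 - τ2) • b with hT
  have hTV : InV c ω T := hbV.smul _
  have hT0 : T ≠ 0 := smul_ne_zero (sub_ne_zero.2 (Ne.symm hτ2')) hb0
  set w : FreeGroup (Fin n) := α * β * (β * α)⁻¹ with hw
  have hρw : ∀ u, InV c ω u → rho hn c ω p μ w u = u + T := by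
    intro u hu
    set f := rho hn c ω p μ ((β * α)⁻¹) u with hf
    have hfV : InV c ω f := rho_inV hn μ hc hcp hω.pow_eq_one _ hu
    have hu2 : u = rho hn c ω p μ (β * α) f := by
      rw [hf, ← Equiv.Perm.mul_apply, ← map_mul, mul_inv_cancel, map_one]; rfl
    have h3 : rho hn c ω p μ (β * α) f = τ2 • (τ1 • f + b) := by
      rw [map_mul, Equiv.Perm.mul_apply, hρα f hfV, hρβ _ ((hfV.smul _).add hbV)]
    have h4 : rho hn c ω p μ w u = τ1 • (τ2 • f) + b := by
      rw [hw, map_mul, Equiv.Perm.mul_apply, ← hf, map_mul, Equiv.Perm.mul_apply, hρβ f hfV,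
        hρα _ (hfV.smul _)]
    rw [h4, hu2, h3, hT]
    funext x
    simp only [Pi.add_apply, Pi.smul_apply, smul_eq_mul]
    ring
  have hρwj : ∀ j : ℕ, ∀ u, InV c ω u → rho hn c ω p μ (w ^ j) u = u + (j : K) • T := by
    intro j
    induction j with
    | zero => intro u _; simp
    | succ j ih =>
      intro u hu
      rw [pow_succ', map_mul, Equiv.Perm.mul_apply, ih u hu, hρw _ (hu.add (hTV.smul _))]
      funext x
      simp only [Pi.add_apply, Pi.smul_apply, smul_eq_mul]
      push_cast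
      ring
  refine ⟨w, fun j hmem => ?_⟩
  have h5 := hmem 1 β 0 (InV.zero c ω)
  have h6 : rho hn c ω p μ ((1 : MulAut (FreeGroup (Fin n))) β) 0 = 0 := by
    rw [MulAut.one_apply, hρβ 0 (InV.zero c ω), smul_zero]
  rw [h6, MulAut.one_apply, MulAut.conj_apply, map_mul, map_mul, Equiv.Perm.mul_apply,
    Equiv.Perm.mul_apply] at h5
  set y := rho hn c ω p μ ((w ^ j)⁻¹) 0 with hy
  have hyV : InV c ω y := rho_inV hn μ hc hcp hω.pow_eq_one _ (InV.zero c ω)
  have h7 : rho hn c ω p μ (w ^ j) y = 0 := by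
    rw [hy, ← Equiv.Perm.mul_apply, ← map_mul, mul_inv_cancel, map_one]; rfl
  rw [hρwj j y hyV] at h7
  rw [hρβ y hyV, hρwj j _ (hyV.smul _)] at h5
  have h8 : y = - ((j : K) • T) := eq_neg_of_add_eq_zero_left h7
  rw [h8] at h5
  have h9 : ((j : K) * (1 - τ2)) • T = 0 := by
    rw [← h5]
    funext x
    simp only [Pi.add_apply, Pi.smul_apply, Pi.neg_apply, smul_eq_mul]
    ring
  rcases smul_eq_zero.1 h9 with h10 | h10
  · rcases mul_eq_zero.1 h10 with h11 | h11
    · exact h11
    · exact absurd (sub_eq_zero.1 h11).symm hτ2'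
  · exact absurd h10 hT0

/-- homomorphisms from a free group of finite rank to a finite group are finite in number -/
instance finite_hom {P : Type*} [Group P] [Finite P] : Finite (FreeGroup (Fin n) →* P) :=
  Finite.of_injective (fun h : FreeGroup (Fin n) →* P => fun i => h (FreeGroup.of i)) (by
    intro h h' e
    ext i
    exact congrFun e i)

/-- `Krho` has finite index -/
theorem Krho_finiteIndex [Finite G] [Finite K] (c : G) (ω : K) (p : ℕ) :
    (Krho hn μ c ω p).FiniteIndex := by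
  classical
  have hP : Finite (Equiv.Perm (G → K)) := inferInstance
  let Φ : MulAut (FreeGroup (Fin n)) → ((FreeGroup (Fin n) →* Equiv.Perm (G → K)) →
      (FreeGroup (Fin n) →* Equiv.Perm (G → K))) :=
    fun α h => h.comp α.toMonoidHom
  have hinj : ∀ α α' : MulAut (FreeGroup (Fin n)), Φ α = Φ α' →
      α⁻¹ * α' ∈ Krho hn μ c ω p := by
    intro α α' e
    have hN := Krho_normal hn c ω p μ
    have key : α' * α⁻¹ ∈ Krho hn μ c ω p := by
      intro β x f _
      have h1 := congrFun e ((rho hn c ω p μ).comp β.toMonoidHom)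
      have h2 := DFunLike.congr_fun h1 (α⁻¹ x)
      change rho hn c ω p μ (β (α (α⁻¹ x))) = rho hn c ω p μ (β (α' (α⁻¹ x))) at h2
      rw [MulAut.mul_apply, ← h2]
      simp
    have h3 := hN.conj_mem _ key α⁻¹
    simpa [mul_assoc] using h3
  have : Finite (MulAut (FreeGroup (Fin n)) ⧸ Krho hn μ c ω p) := by
    apply Finite.of_injective (fun q : MulAut (FreeGroup (Fin n)) ⧸ Krho hn μ c ω p => Φ q.out)
    intro q q' e
    have h := hinj _ _ e
    rw [← q.out_eq', ← q'.out_eq']
    exact QuotientGroup.eq.2 h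
  exact Subgroup.finiteIndex_of_finite_quotient

/-- for every bound there is a finite index normal subgroup of `Q(n,m)` with larger index -/
theorem exists_large [Finite G] [Fact p.Prime] {k m : ℕ} (hc : ∀ g, c * g = g * c)
    (hcp : c ^ p = 1) (hc1 : c ≠ 1)
    (H : ∀ g, ab n p g ≠ 1 → ∃ s : ℕ, ¬ p ∣ s ∧ μ g ^ (p ^ k) = c ^ s)
    (hm : p ^ (k + 1) ∣ m) (J : ℕ) :
    ∃ N : Subgroup (Q n m hn), N.Normal ∧ N.FiniteIndex ∧ J < N.index := by
  have hp : p.Prime := Fact.out
  obtain ⟨l, hl, hJl, hl1⟩ := Nat.exists_prime_gt_modEq_one (k := p) J hp.ne_zero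
  have hlf : Fact l.Prime := ⟨hl⟩
  obtain ⟨ω, hω⟩ : ∃ ω : ZMod l, IsPrimitiveRoot ω p := by
    have hd : p ∣ Fintype.card (ZMod l)ˣ := by
      rw [ZMod.card_units]
      exact (Nat.modEq_iff_dvd' hl.one_lt.le).1 hl1.symm
    obtain ⟨u, hu⟩ := exists_prime_orderOf_dvd_card p hd
    refine ⟨u, ?_⟩
    rw [IsPrimitiveRoot.coe_units_iff, ← hu]
    exact IsPrimitiveRoot.orderOf u
  obtain ⟨w, hw⟩ := exists_word hn μ hc hcp hc1 hω H
  have hN := Krho_normal hn c ω p μ
  have hfi := Krho_finiteIndex hn μ c ω p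
  have hle : Subgroup.normalClosure {(nielsen n hn) ^ m} ≤ Krho hn μ c ω p := by
    apply Subgroup.normalClosure_le_normal
    intro y hy
    rw [Set.mem_singleton_iff] at hy
    rw [hy]
    exact nielsen_mem hn μ hc hcp hω H hm
  have hsurj : Function.Surjective
      (QuotientGroup.mk' (Subgroup.normalClosure {(nielsen n hn) ^ m})) :=
    QuotientGroup.mk'_surjective _
  let N : Subgroup (Q n m hn) := (Krho hn μ c ω p).map
    (QuotientGroup.mk' (Subgroup.normalClosure {(nielsen n hn) ^ m}))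
  have hNn : N.Normal := Subgroup.Normal.map hN _ hsurj
  have hNi : N.index ≠ 0 := by
    have h1 : N.index ∣ (Krho hn μ c ω p).index := Subgroup.index_map_dvd _ hsurj
    intro h0
    rw [h0] at h1
    exact hfi.index_ne_zero (Nat.eq_zero_of_zero_dvd h1)
  refine ⟨N, hNn, ⟨hNi⟩, ?_⟩
  have h2 : (QuotientGroup.mk' (Subgroup.normalClosure {(nielsen n hn) ^ m})
      (MulAut.conj w)) ^ N.index ∈ N := Subgroup.pow_index_mem N _
  rw [← map_pow, ← map_pow] at h2
  obtain ⟨a, ha, hae⟩ := h2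
  have h3 : MulAut.conj (w ^ N.index) ∈ Krho hn μ c ω p := by
    have h4 : a⁻¹ * MulAut.conj (w ^ N.index) ∈
        Subgroup.normalClosure {(nielsen n hn) ^ m} := QuotientGroup.eq.1 hae
    have h5 := Subgroup.mul_mem _ ha (hle h4)
    simpa using h5
  have h6 := hw _ h3
  rw [ZMod.natCast_eq_zero_iff] at h6
  exact lt_of_lt_of_le hJl (Nat.le_of_dvd (Nat.pos_of_ne_zero hNi) h6)

end Pool.Agent.Helper168_QF
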