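import Mathlib
import Pool.Agent.Helper168_QF.Fin
import Pool.Agent.Helper270.QD

/-!
`Q(n,m)` has infinitely many finite index normal subgroups if `p ^ (k + 1)` divides `m` for a prime
power `p ^ k ≥ n`.
-/

namespace Pool.Agent.Helper168_QF

open H270Q (ab nielsen nielsen_pow_zero nielsen_pow_ne ab_auto_ne ab_of_ne Q KK MM mu0 mu0_comm
  mu0_pow c0 c0_pow c0_val corner corner_injective ell dpos)

open Finset

theorem exists_large_index (p k n m : ℕ) (hp : p.Prime) (hn : 2 ≤ n) (hnk : n ≤ p ^ k)
    (hm : p ^ (k + 1) ∣ m) (J : ℕ) :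
    ∃ N : Subgroup (Q n m hn), N.Normal ∧ N.FiniteIndex ∧ J < N.index := by
  have : Fact p.Prime := ⟨hp⟩
  have hfr : Module.finrank (ZMod p) (KK p k) = p ^ k := GaloisField.finrank p (dpos p k).ne'
  let bs : Module.Basis (Fin (p ^ k)) (ZMod p) (KK p k) := Module.finBasisOfFinrankEq _ _ hfr
  let x : Fin n → KK p k := fun i => bs (Fin.castLE hnk i)
  have hli : LinearIndependent (ZMod p) x :=
    bs.linearIndependent.comp _ (Fin.castLE_injective hnk)
  have hell : ∀ v : Fin n → ZMod p, v ≠ 0 → ell x v ≠ 0 := by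
    intro v hv h
    apply hv
    funext i
    exact Fintype.linearIndependent_iff.1 hli v h i
  let G : Subgroup (MM p k)ˣ := Subgroup.centralizer {c0 p k}
  have hG : ∀ w, mu0 x w ∈ G := by
    intro w
    rw [Subgroup.mem_centralizer_iff]
    intro h hh
    rw [Set.mem_singleton_iff] at hh
    rw [hh]
    exact mu0_comm x w
  have hcG : c0 p k ∈ G := by
    rw [Subgroup.mem_centralizer_iff]
    intro h hh
    rw [Set.mem_singleton_iff] at hh
    rw [hh]
  let μ : FreeGroup (Fin n) →* G := (mu0 x).codRestrict G hG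
  let c : G := ⟨c0 p k, hcG⟩
  have hc : ∀ g : G, c * g = g * c := by
    intro g
    apply Subtype.ext
    exact Subgroup.mem_centralizer_iff.1 g.2 _ (Set.mem_singleton _)
  have hcp : c ^ p = 1 := by
    apply Subtype.ext
    apply Units.ext
    change ((c0 p k ^ p : (MM p k)ˣ) : MM p k) = 1
    rw [c0_pow, CharP.cast_eq_zero]
    have : corner (p ^ k) (KK p k) (0 : KK p k) = 0 := by ext i j; simp [corner]
    rw [this, add_zero]
  have hc1 : c ≠ 1 := by
    intro h
    have h1 : c0 p k = 1 := congrArg Subtype.val h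
    have h2 : (1 : MM p k) + corner (p ^ k) (KK p k) 1 = 1 := by
      rw [← c0_val, h1]; rfl
    have h3 : corner (p ^ k) (KK p k) 1 = corner (p ^ k) (KK p k) 0 := by
      have : corner (p ^ k) (KK p k) (0 : KK p k) = 0 := by ext i j; simp [corner]
      rw [this]
      simpa using h2
    exact one_ne_zero (corner_injective h3)
  have hfinK : Finite (KK p k) := inferInstance
  have hfinM : Finite (MM p k) := inferInstanceAs (Finite (_ → _ → _))
  have hfinU : Finite (MM p k)ˣ := inferInstance
  have hfinG : Finite G := inferInstance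
  refine exists_large (G := G) hn (c := c) (p := p) (k := k) μ hc hcp hc1 ?_ hm J
  intro g hg
  obtain ⟨s, hs, e⟩ := mu0_pow x g hfr (hell _ (fun h => hg (by
    apply Multiplicative.toAdd.injective
    rw [h]; rfl)))
  refine ⟨s, hs, ?_⟩
  apply Subtype.ext
  exact e

/-- `Q(n,m)` has infinitely many normal subgroups of finite index -/
theorem infinite_normal (p k n m : ℕ) (hp : p.Prime) (hn : 2 ≤ n) (hnk : n ≤ p ^ k)
    (hm : p ^ (k + 1) ∣ m) :
    Set.Infinite {N : Subgroup (Q n m hn) | N.Normal ∧ N.FiniteIndex} := by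
  intro hfin
  obtain ⟨N, h1, h2, h3⟩ := exists_large_index p k n m hp hn hnk hm
    (∑ N ∈ hfin.toFinset, N.index)
  have h4 : N ∈ hfin.toFinset := by
    rw [Set.Finite.mem_toFinset]
    exact ⟨h1, h2⟩
  have h5 := Finset.single_le_sum (f := fun N : Subgroup (Q n m hn) => N.index)
    (fun _ _ => Nat.zero_le _) h4
  omega

end Pool.Agent.Helper168_QF
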